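import Mathlib

/-! Spaces with an unconditional expansion of the identity have no equivalent norm with the
Daugavet property. -/

set_option autoImplicit false

namespace Pool.Agent.W2helper15.SCD

open Finset

variable {Y : Type*} [NormedAddCommGroup Y] [NormedSpace ℝ Y]

/-- the Daugavet property in terms of rank-one operators -/
def DP (Y : Type*) [NormedAddCommGroup Y] [NormedSpace ℝ Y] : Prop :=
  ∀ (f : Y →L[ℝ] ℝ) (v : Y),
    ‖ContinuousLinearMap.id ℝ Y + f.smulRight v‖ = 1 + ‖f.smulRight v‖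

theorem dp_slice (h : DP Y) {f : Y →L[ℝ] ℝ} (hf : f ≠ 0) {z : Y} (hz : z ≠ 0) {δ : ℝ}
    (hδ : 0 < δ) : ∃ y : Y, ‖y‖ ≤ 1 ∧ ‖f‖ - δ < f y ∧ 1 + ‖z‖ - δ ≤ ‖y + z‖ := by
  have hf0 : 0 < ‖f‖ := norm_pos_iff.2 hf
  have hz0 : 0 < ‖z‖ := norm_pos_iff.2 hz
  set g : Y →L[ℝ] ℝ := ‖f‖⁻¹ • f with hg
  have hg1 : ‖g‖ = 1 := by
    rw [hg, norm_smul, norm_inv, norm_norm, inv_mul_cancel₀ hf0.ne']
  have h1 : ‖ContinuousLinearMap.id ℝ Y + g.smulRight z‖ = 1 + ‖z‖ := by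
    rw [h, ContinuousLinearMap.norm_smulRight_apply, hg1, one_mul]
  set η : ℝ := min (δ / 2) (δ * ‖z‖ / ‖f‖) with hη
  have hη0 : 0 < η := lt_min (by positivity) (by positivity)
  obtain ⟨y0, hy0, hy1⟩ := (ContinuousLinearMap.id ℝ Y + g.smulRight z).exists_lt_apply_of_lt_opNorm
    (r := 1 + ‖z‖ - η) (by rw [h1]; linarith)
  -- make `g y` nonnegative
  obtain ⟨y, hy, hgy, hyn⟩ : ∃ y : Y, ‖y‖ ≤ 1 ∧ 0 ≤ g y ∧ 1 + ‖z‖ - η < ‖y + g y • z‖ := by
    have h2 : (ContinuousLinearMap.id ℝ Y + g.smulRight z) y0 = y0 + g y0 • z := rfl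
    rw [h2] at hy1
    rcases le_total 0 (g y0) with h3 | h3
    · exact ⟨y0, hy0.le, h3, hy1⟩
    · refine ⟨-y0, by rw [norm_neg]; exact hy0.le, by rw [map_neg]; linarith, ?_⟩
      rw [map_neg, neg_smul, ← neg_add, norm_neg]
      exact hy1
  have h2 : ‖y + g y • z‖ ≤ 1 + g y * ‖z‖ := by
    refine (norm_add_le _ _).trans ?_
    rw [norm_smul, Real.norm_of_nonneg hgy]
    linarith
  have hg2 : g y ≤ 1 := by
    have := g.le_opNorm y
    rw [hg1, one_mul, Real.norm_of_nonneg hgy] at this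
    linarith
  have h3 : (1 - g y) * ‖z‖ < η := by nlinarith
  have h4 : g y = ‖f‖⁻¹ * f y := rfl
  refine ⟨y, hy, ?_, ?_⟩
  · have h5 : (1 - g y) * ‖z‖ < δ * ‖z‖ / ‖f‖ := h3.trans_le (min_le_right _ _)
    have h6 : (1 - g y) < δ / ‖f‖ := by
      have h7 : δ * ‖z‖ / ‖f‖ = (δ / ‖f‖) * ‖z‖ := by ring
      rw [h7] at h5
      exact lt_of_mul_lt_mul_right h5 hz0.le
    rw [lt_div_iff₀ hf0, h4] at h6
    have h8 : ‖f‖⁻¹ * f y * ‖f‖ = f y := by field_simp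
    nlinarith
  · have h5 : y + z = (y + g y • z) + (1 - g y) • z := by
      rw [sub_smul, one_smul]; abel
    have h6 : ‖y + g y • z‖ ≤ ‖y + z‖ + ‖(1 - g y) • z‖ := by
      have : y + g y • z = (y + z) - (1 - g y) • z := by rw [h5]; abel
      rw [this]
      exact norm_sub_le _ _
    rw [norm_smul, Real.norm_of_nonneg (by linarith)] at h6
    have h7 : η ≤ δ / 2 := min_le_left _ _
    linarith

/-- Passing to a slice on which a given functional is almost constant. -/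
theorem sub_slice {ψ₀ : Y →L[ℝ] ℝ} (hψ₀ : ψ₀ ≠ 0) {δ₀ : ℝ} (hδ₀ : 0 < δ₀) (φ : Y →L[ℝ] ℝ) {η : ℝ}
    (hη : 0 < η) : ∃ (ψ : Y →L[ℝ] ℝ) (δ r : ℝ), ψ ≠ 0 ∧ 0 < δ ∧
      ∀ y : Y, ‖y‖ ≤ 1 → ‖ψ‖ - δ < ψ y → ‖ψ₀‖ - δ₀ < ψ₀ y ∧ |φ y - r| ≤ η := by
  have hψ0 : 0 < ‖ψ₀‖ := norm_pos_iff.2 hψ₀
  set L : ℝ := ‖φ‖ + 1 with hL
  have hL0 : 0 < L := by positivity
  have hφL : ‖φ‖ ≤ L := by rw [hL]; linarith
  obtain ⟨M, hM⟩ := exists_nat_gt (4 * L / η)
  have hM0 : (0 : ℝ) < M := lt_trans (by positivity) hM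
  have hMη : 2 * L / M < η / 2 := by
    rw [div_lt_iff₀ hη] at hM
    rw [div_lt_iff₀ hM0]
    linarith
  set τ : ℝ := min (δ₀ / 4) (‖ψ₀‖ / 2) / (L * (M + 1)) with hτ
  have hτ0 : 0 < τ := by positivity
  set h : ℝ → ℝ := fun t => ‖ψ₀ + t • φ‖ with hh
  have hlip : ∀ s t : ℝ, h s - h t ≤ |s - t| * L := by
    intro s t
    have h1 : h s - h t ≤ ‖(ψ₀ + s • φ) - (ψ₀ + t • φ)‖ := norm_sub_norm_le _ _
    have h2 : (ψ₀ + s • φ) - (ψ₀ + t • φ) = (s - t) • φ := by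
      ext y
      simp only [sub_apply, add_apply, smul_apply, smul_eq_mul]
      ring
    rw [h2, norm_smul, Real.norm_eq_abs] at h1
    exact h1.trans (mul_le_mul_of_nonneg_left hφL (abs_nonneg _))
  set m : ℕ → ℝ := fun j => (h ((j + 1) * τ) - h (j * τ)) / τ with hm
  have hmle : ∀ j, |m j| ≤ L := by
    intro j
    have h1 := hlip ((j + 1) * τ) (j * τ)
    have h2 := hlip (j * τ) ((j + 1) * τ)
    have h3 : |((j : ℝ) + 1) * τ - j * τ| = τ := by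
      rw [show ((j : ℝ) + 1) * τ - j * τ = τ by ring, abs_of_pos hτ0]
    rw [abs_sub_comm, h3] at h2
    rw [h3] at h1
    simp only [hm]
    rw [abs_div, abs_of_pos hτ0, div_le_iff₀ hτ0, abs_le]
    constructor <;> linarith
  obtain ⟨j, hj, hmj⟩ : ∃ j ∈ range M, m (j + 1) - m j ≤ 2 * L / M := by
    by_contra hcon
    push Not at hcon
    have h1 : ∑ j ∈ range M, 2 * L / M < ∑ j ∈ range M, (m (j + 1) - m j) := by
      apply Finset.sum_lt_sum_of_nonempty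
      · rw [Finset.nonempty_range_iff]
        rintro rfl
        simp at hM0
      · exact hcon
    rw [Finset.sum_range_sub, Finset.sum_const, card_range, nsmul_eq_mul] at h1
    have h2 : (M : ℝ) * (2 * L / M) = 2 * L := by field_simp
    rw [h2] at h1
    have h3 := (abs_le.1 (hmle M)).2
    have h4 := (abs_le.1 (hmle 0)).1
    linarith
  rw [Finset.mem_range] at hj
  set t : ℝ := (j + 1) * τ with ht
  have ht0 : 0 < t := by positivity
  have htL : t * L ≤ min (δ₀ / 4) (‖ψ₀‖ / 2) := by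
    have h1 : ((j : ℝ) + 1) ≤ M + 1 := by
      have : (j : ℝ) ≤ M := by exact_mod_cast hj.le
      linarith
    calc t * L = ((j : ℝ) + 1) * L * τ := by rw [ht]; ring
      _ ≤ (M + 1) * L * τ := by gcongr
      _ = min (δ₀ / 4) (‖ψ₀‖ / 2) := by rw [hτ]; field_simp
  have hψ : ‖ψ₀‖ / 2 ≤ ‖ψ₀ + t • φ‖ := by
    have h1 : ‖ψ₀‖ ≤ ‖ψ₀ + t • φ‖ + ‖t • φ‖ := by
      have : ψ₀ = (ψ₀ + t • φ) - t • φ := by abel
      calc ‖ψ₀‖ = ‖(ψ₀ + t • φ) - t • φ‖ := by rw [← this]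
        _ ≤ _ := norm_sub_le _ _
    have h2 : ‖t • φ‖ ≤ ‖ψ₀‖ / 2 := by
      rw [norm_smul, Real.norm_of_nonneg ht0.le]
      exact (mul_le_mul_of_nonneg_left hφL ht0.le).trans (htL.trans (min_le_right _ _))
    linarith
  refine ⟨ψ₀ + t • φ, min (δ₀ / 4) (η * τ / 4), m j, ?_, lt_min (by positivity) (by positivity),
    fun y hy hyψ => ?_⟩
  · intro h0
    rw [h0, norm_zero] at hψ
    linarith
  · have hφy : |φ y| ≤ L := by
      have := φ.le_opNorm y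
      rw [Real.norm_eq_abs] at this
      have h2 : ‖φ‖ * ‖y‖ ≤ ‖φ‖ * 1 := mul_le_mul_of_nonneg_left hy (norm_nonneg _)
      linarith
    have hle : ∀ s : ℝ, ψ₀ y + s * φ y ≤ h s := by
      intro s
      have h1 := (ψ₀ + s • φ).le_opNorm y
      have h2 : ‖ψ₀ + s • φ‖ * ‖y‖ ≤ ‖ψ₀ + s • φ‖ * 1 :=
        mul_le_mul_of_nonneg_left hy (norm_nonneg _)
      have h3 : (ψ₀ + s • φ) y = ψ₀ y + s * φ y := rfl
      rw [h3, Real.norm_eq_abs] at h1
      have h4 := le_abs_self (ψ₀ y + s * φ y)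
      calc _ ≤ _ := h4
        _ ≤ _ := h1
        _ ≤ _ := h2
        _ = h s := by rw [mul_one]
    have h5 : (ψ₀ + t • φ) y = ψ₀ y + t * φ y := rfl
    have h6 : h t = ‖ψ₀ + t • φ‖ := rfl
    rw [h5, ← h6] at hyψ
    have hmin1 : min (δ₀ / 4) (η * τ / 4) ≤ δ₀ / 4 := min_le_left _ _
    have hmin2 : min (δ₀ / 4) (η * τ / 4) ≤ η * τ / 4 := min_le_right _ _
    have hy2 := abs_le.1 hφy
    constructor
    · have h7 := hlip 0 t
      have h8 : h 0 = ‖ψ₀‖ := by simp [hh]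
      rw [h8, zero_sub, abs_neg, abs_of_pos ht0] at h7
      have h9 : t * L ≤ δ₀ / 4 := htL.trans (min_le_left _ _)
      have h10 : t * φ y ≤ t * L := mul_le_mul_of_nonneg_left hy2.2 ht0.le
      linarith
    · have h7 := hle (t + τ)
      have h8 := hle (t - τ)
      have h9 : m (j + 1) * τ = h (t + τ) - h t := by
        simp only [hm]
        rw [div_mul_cancel₀ _ hτ0.ne', ht]
        push_cast
        ring_nf
      have h10 : m j * τ = h t - h (t - τ) := by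
        simp only [hm]
        rw [div_mul_cancel₀ _ hτ0.ne', ht]
        ring_nf
      have h11 : φ y * τ ≤ m (j + 1) * τ + η * τ / 4 := by
        rw [h9]; nlinarith
      have h12 : m j * τ - η * τ / 4 ≤ φ y * τ := by
        rw [h10]; nlinarith
      have h13 : φ y ≤ m (j + 1) + η / 4 := by
        have : φ y * τ ≤ (m (j + 1) + η / 4) * τ := by linarith
        exact le_of_mul_le_mul_right this hτ0
      have h14 : m j - η / 4 ≤ φ y := by
        have : (m j - η / 4) * τ ≤ φ y * τ := by linarith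
        exact le_of_mul_le_mul_right this hτ0
      rw [abs_le]
      constructor <;> linarith

/-- Passing to a slice on which finitely many functionals are almost constant. -/
theorem sub_slice_finset {ι : Type*} {ψ₀ : Y →L[ℝ] ℝ} (hψ₀ : ψ₀ ≠ 0) {δ₀ : ℝ} (hδ₀ : 0 < δ₀)
    (φ : ι → Y →L[ℝ] ℝ) {η : ℝ} (hη : 0 < η) (F : Finset ι) :
    ∃ (ψ : Y →L[ℝ] ℝ) (δ : ℝ) (r : ι → ℝ), ψ ≠ 0 ∧ 0 < δ ∧
      ∀ y : Y, ‖y‖ ≤ 1 → ‖ψ‖ - δ < ψ y → ‖ψ₀‖ - δ₀ < ψ₀ y ∧ ∀ i ∈ F, |φ i y - r i| ≤ η := by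
  classical
  induction F using Finset.induction_on with
  | empty => exact ⟨ψ₀, δ₀, fun _ => 0, hψ₀, hδ₀, fun y _ hy => ⟨hy, by simp⟩⟩
  | insert i F hi ih =>
    obtain ⟨ψ, δ, r, h1, h2, h3⟩ := ih
    obtain ⟨ψ', δ', r', h4, h5, h6⟩ := sub_slice h1 h2 (φ i) hη
    refine ⟨ψ', δ', fun j => if j = i then r' else r j, h4, h5, fun y hy hyψ => ?_⟩
    obtain ⟨h7, h8⟩ := h6 y hy hyψ
    obtain ⟨h9, h10⟩ := h3 y hy h7
    refine ⟨h9, fun j hj => ?_⟩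
    by_cases hji : j = i
    · subst hji
      simpa using h8
    · simp only [if_neg hji]
      exact h10 j ((Finset.mem_insert.1 hj).resolve_left hji)

/-- The Daugavet equation for operators of finite rank. -/
theorem dp_finite_rank (h : DP Y) {ι : Type*} (φ : ι → Y →L[ℝ] ℝ) (z : ι → Y) (F : Finset ι) :
    1 + ‖∑ i ∈ F, (φ i).smulRight (z i)‖ ≤
      ‖ContinuousLinearMap.id ℝ Y + ∑ i ∈ F, (φ i).smulRight (z i)‖ := by
  classical
  set T : Y →L[ℝ] Y := ∑ i ∈ F, (φ i).smulRight (z i) with hT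
  have hTy : ∀ y, T y = ∑ i ∈ F, φ i y • z i := by
    intro y
    rw [hT, _root_.sum_apply]
    rfl
  by_cases hT0 : T = 0
  · have := h 0 0
    rw [hT0, norm_zero, add_zero, add_zero]
    simpa using this.ge
  have hTn : 0 < ‖T‖ := norm_pos_iff.2 hT0
  apply le_of_forall_pos_le_add
  intro ε hε
  set ε' : ℝ := min (ε / 5) (‖T‖ / 4) with hε'
  have hε0 : 0 < ε' := lt_min (by positivity) (by positivity)
  have hε1 : ε' ≤ ε / 5 := min_le_left _ _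
  have hε2 : ε' ≤ ‖T‖ / 4 := min_le_right _ _
  obtain ⟨y0, hy0, hy1⟩ := T.exists_lt_apply_of_lt_opNorm (r := ‖T‖ - ε') (by linarith)
  obtain ⟨χ, hχ1, hχ2⟩ := exists_dual_vector'' ℝ (T y0)
  have hχ2' : χ (T y0) = ‖T y0‖ := by exact_mod_cast hχ2
  set ψ₀ : Y →L[ℝ] ℝ := χ.comp T with hψ₀
  have hψ₀n : ‖T‖ - ε' < ‖ψ₀‖ := by
    have h1 := ψ₀.le_opNorm y0
    have h2 : ‖ψ₀‖ * ‖y0‖ ≤ ‖ψ₀‖ * 1 := mul_le_mul_of_nonneg_left hy0.le (norm_nonneg _)
    have h3 : ψ₀ y0 = ‖T y0‖ := hχ2'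
    have h4 := le_abs_self (ψ₀ y0)
    rw [Real.norm_eq_abs] at h1
    linarith
  have hψ₀0 : ψ₀ ≠ 0 := by
    intro h0
    rw [h0, norm_zero] at hψ₀n
    linarith
  set S : ℝ := ∑ i ∈ F, ‖z i‖ + 1 with hS
  have hS0 : 0 < S := by positivity
  obtain ⟨ψ, δ, r, h1, h2, h3⟩ := sub_slice_finset hψ₀0 hε0 φ (η := ε' / S) (by positivity) F
  set w : Y := ∑ i ∈ F, r i • z i with hw
  have hclose : ∀ y : Y, ‖y‖ ≤ 1 → ‖ψ‖ - δ < ψ y → ‖T y - w‖ ≤ ε' ∧ ‖T‖ - 2 * ε' < ‖T y‖ := by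
    intro y hy hyψ
    obtain ⟨h4, h5⟩ := h3 y hy hyψ
    constructor
    · rw [hTy, hw, ← Finset.sum_sub_distrib]
      calc ‖∑ i ∈ F, (φ i y • z i - r i • z i)‖ ≤ ∑ i ∈ F, ‖φ i y • z i - r i • z i‖ :=
            norm_sum_le _ _
        _ ≤ ∑ i ∈ F, ε' / S * ‖z i‖ := by
            apply Finset.sum_le_sum
            intro i hi
            rw [← sub_smul, norm_smul, Real.norm_eq_abs]
            exact mul_le_mul_of_nonneg_right (h5 i hi) (norm_nonneg _)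
        _ = ε' / S * ∑ i ∈ F, ‖z i‖ := by rw [Finset.mul_sum]
        _ ≤ ε' / S * S := by
            apply mul_le_mul_of_nonneg_left _ (by positivity)
            rw [hS]; linarith
        _ = ε' := by field_simp
    · have h6 : ψ₀ y = χ (T y) := rfl
      have h7 := χ.le_opNorm (T y)
      have h8 : ‖χ‖ * ‖T y‖ ≤ 1 * ‖T y‖ := mul_le_mul_of_nonneg_right hχ1 (norm_nonneg _)
      have h9 := le_abs_self (χ (T y))
      rw [Real.norm_eq_abs] at h7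
      linarith
  -- a point of the slice
  have hψn : 0 < ‖ψ‖ := norm_pos_iff.2 h1
  obtain ⟨y1, hy1', hy1''⟩ : ∃ y1 : Y, ‖y1‖ ≤ 1 ∧ ‖ψ‖ - δ < ψ y1 := by
    obtain ⟨y1, h4, h5⟩ := ψ.exists_lt_apply_of_lt_opNorm (r := ‖ψ‖ - δ) (by linarith)
    rcases le_total 0 (ψ y1) with h6 | h6
    · exact ⟨y1, h4.le, by rwa [Real.norm_of_nonneg h6] at h5⟩
    · exact ⟨-y1, by rw [norm_neg]; exact h4.le, by
        rwa [map_neg, ← Real.norm_of_nonpos h6]⟩
  have hwn : ‖T‖ - 3 * ε' < ‖w‖ := by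
    obtain ⟨h4, h5⟩ := hclose y1 hy1' hy1''
    have h6 : ‖T y1‖ ≤ ‖T y1 - w‖ + ‖w‖ := by
      have : T y1 = (T y1 - w) + w := by abel
      calc ‖T y1‖ = ‖(T y1 - w) + w‖ := by rw [← this]
        _ ≤ _ := norm_add_le _ _
    linarith
  have hw0 : w ≠ 0 := by
    intro h0
    rw [h0, norm_zero] at hwn
    linarith
  obtain ⟨y, hy, hyψ, hyw⟩ := dp_slice h h1 hw0 (lt_min h2 hε0)
  have hyψ' : ‖ψ‖ - δ < ψ y := by
    have := min_le_left δ ε'
    linarith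
  have hyw' : 1 + ‖w‖ - ε' ≤ ‖y + w‖ := by
    have := min_le_right δ ε'
    linarith
  obtain ⟨h4, -⟩ := hclose y hy hyψ'
  have h5 : ‖y + w‖ ≤ ‖(ContinuousLinearMap.id ℝ Y + T) y‖ + ε' := by
    have : y + w = (ContinuousLinearMap.id ℝ Y + T) y - (T y - w) := by
      change y + w = (y + T y) - (T y - w)
      abel
    rw [this]
    exact (norm_sub_le _ _).trans (by linarith)
  have h6 := (ContinuousLinearMap.id ℝ Y + T).le_opNorm y
  have h7 : ‖ContinuousLinearMap.id ℝ Y + T‖ * ‖y‖ ≤ ‖ContinuousLinearMap.id ℝ Y + T‖ * 1 :=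
    mul_le_mul_of_nonneg_left hy (norm_nonneg _)
  linarith

/-- A space with an unconditional expansion of the identity has no equivalent norm with the
Daugavet property. -/
theorem no_daugavet {X : Type*} [NormedAddCommGroup X] [NormedSpace ℝ X] {ι : Type*}
    (e : X ≃L[ℝ] Y) (w : ι → X →L[ℝ] ℝ) (v : ι → X)
    (hb : ∀ (F : Finset ι) (x : X), ‖∑ s ∈ F, w s x • v s‖ ≤ ‖x‖)
    (hd : ∀ (x : X) (ε : ℝ), 0 < ε → ∃ F₀ : Finset ι, ∀ F : Finset ι, F₀ ⊆ F →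
      ‖x - ∑ s ∈ F, w s x • v s‖ < ε) : ¬ DP Y := by
  classical
  intro h
  set T : Finset ι → Y →L[ℝ] Y := fun F =>
    ∑ s ∈ F, ((w s).comp (e.symm : Y →L[ℝ] X)).smulRight (e (v s)) with hT
  have hTy : ∀ F y, T F y = e (∑ s ∈ F, w s (e.symm y) • v s) := by
    intro F y
    simp only [hT, _root_.sum_apply, map_sum, map_smul]
    rfl
  set C : ℝ := ‖(e : X →L[ℝ] Y)‖ * ‖(e.symm : Y →L[ℝ] X)‖ with hC
  have hTb : ∀ F, ‖T F‖ ≤ C := by
    intro F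
    apply ContinuousLinearMap.opNorm_le_bound _ (by positivity)
    intro y
    rw [hTy]
    have h1 := (e : X →L[ℝ] Y).le_opNorm (∑ s ∈ F, w s (e.symm y) • v s)
    have h2 := (e.symm : Y →L[ℝ] X).le_opNorm y
    calc _ ≤ ‖(e : X →L[ℝ] Y)‖ * ‖∑ s ∈ F, w s (e.symm y) • v s‖ := h1
      _ ≤ ‖(e : X →L[ℝ] Y)‖ * ‖e.symm y‖ := mul_le_mul_of_nonneg_left (hb F _) (norm_nonneg _)
      _ ≤ ‖(e : X →L[ℝ] Y)‖ * (‖(e.symm : Y →L[ℝ] X)‖ * ‖y‖) :=
          mul_le_mul_of_nonneg_left h2 (norm_nonneg _)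
      _ = C * ‖y‖ := by rw [hC]; ring
  have hbdd : BddAbove (Set.range fun F => ‖T F‖) := ⟨C, by rintro _ ⟨F, rfl⟩; exact hTb F⟩
  set α : ℝ := ⨆ F, ‖T F‖ with hα
  have hTα : ∀ F, ‖T F‖ ≤ α := fun F => le_ciSup hbdd F
  have hα0 : 0 ≤ α := (norm_nonneg _).trans (hTα ∅)
  have hid : ∀ F, ‖ContinuousLinearMap.id ℝ Y - T F‖ ≤ α := by
    intro F
    apply ContinuousLinearMap.opNorm_le_bound _ hα0
    intro y
    apply le_of_forall_pos_le_add
    intro ε hε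
    obtain ⟨F₀, hF₀⟩ := hd (e.symm y) (ε / (‖(e : X →L[ℝ] Y)‖ + 1)) (by positivity)
    have h1 := hF₀ (F₀ ∪ F) Finset.subset_union_left
    have h2 : ‖y - T (F₀ ∪ F) y‖ ≤ ε := by
      have h3 : y - T (F₀ ∪ F) y =
          e (e.symm y - ∑ s ∈ F₀ ∪ F, w s (e.symm y) • v s) := by
        rw [map_sub, hTy, ContinuousLinearEquiv.apply_symm_apply]
      rw [h3]
      have h4 := (e : X →L[ℝ] Y).le_opNorm (e.symm y - ∑ s ∈ F₀ ∪ F, w s (e.symm y) • v s)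
      have h5 : 0 < ‖(e : X →L[ℝ] Y)‖ + 1 := by positivity
      rw [lt_div_iff₀ h5] at h1
      have h6 := norm_nonneg (e.symm y - ∑ s ∈ F₀ ∪ F, w s (e.symm y) • v s)
      calc _ ≤ _ := h4
        _ ≤ ε := by nlinarith
    have h7 : T (F₀ ∪ F) = T F + T ((F₀ ∪ F) \ F) := by
      simp only [hT]
      rw [add_comm, Finset.sum_sdiff Finset.subset_union_right]
    have h8 : (ContinuousLinearMap.id ℝ Y - T F) y =
        (y - T (F₀ ∪ F) y) + T ((F₀ ∪ F) \ F) y := by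
      rw [h7]
      change y - T F y = y - (T F y + T ((F₀ ∪ F) \ F) y) + T ((F₀ ∪ F) \ F) y
      abel
    rw [h8]
    have h9 := (T ((F₀ ∪ F) \ F)).le_opNorm y
    have h10 : ‖T ((F₀ ∪ F) \ F)‖ * ‖y‖ ≤ α * ‖y‖ :=
      mul_le_mul_of_nonneg_right (hTα _) (norm_nonneg _)
    refine (norm_add_le _ _).trans ?_
    linarith
  have hkey : ∀ F, 1 + ‖T F‖ ≤ α := by
    intro F
    have h1 := dp_finite_rank h (fun s => -((w s).comp (e.symm : Y →L[ℝ] X)))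
      (fun s => e (v s)) F
    have h2 : ∑ s ∈ F, (-((w s).comp (e.symm : Y →L[ℝ] X))).smulRight (e (v s)) = - T F := by
      simp only [hT]
      rw [← Finset.sum_neg_distrib]
      apply Finset.sum_congr rfl
      intro s _
      ext y
      simp
    rw [h2, norm_neg, ← sub_eq_add_neg] at h1
    exact h1.trans (hid F)
  have h1 : α ≤ α - 1 := by
    apply ciSup_le
    intro F
    have := hkey F
    linarith
  linarith

end Pool.Agent.W2helper15.SCD
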