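import Pool.Agent.W2helper15.SCD.Tree
import Pool.Agent.W2helper15.SCD.Daug

/-! The space with an unconditional basis indexed by the dyadic tree, in which the coefficient
functions of variation at most one along all branches are the norming functionals, and a convex
bounded subset of it which is not slicely countably determined. -/

set_option autoImplicit false

namespace Pool.Agent.W2helper15.SCD

open scoped BoundedContinuousFunction

/-- the norming functionals -/
def CC : Set (Node → ℝ) := {c | ∀ s, V c s ≤ 1}

theorem abs_le_one (c : CC) (s : Node) : |c.1 s| ≤ 1 := by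
  have h1 := c.2 (true :: s)
  have h2 := V_nonneg c.1 s
  simp only [V] at h1
  linarith

/-- the coordinate function -/
noncomputable def ev (s : Node) : CC →ᵇ ℝ :=
  BoundedContinuousFunction.ofNormedAddCommGroup (fun c => c.1 s)
    ((continuous_apply s).comp continuous_subtype_val) 1 (fun c => abs_le_one c s)

theorem ev_apply (s : Node) (c : CC) : ev s c = c.1 s := rfl

/-- restriction of a norming functional to a set of nodes -/
noncomputable def restr (F : Finset Node) (c : CC) : CC :=
  ⟨fun s => if s ∈ F then c.1 s else 0, fun s => (V_mono (fun t => by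
    split_ifs
    · exact le_rfl
    · simp) s).trans (c.2 s)⟩

theorem V_zero (r : Node) : V (fun _ : Node => (0 : ℝ)) r = 0 := by
  induction r with
  | nil => rfl
  | cons b r ih => simp [V, ih]

/-- the coordinate functional -/
noncomputable def single (s : Node) : CC :=
  ⟨Function.update (fun _ => 0) s 1, fun r => by
    rcases update_cases (fun _ => (0 : ℝ)) s (fun _ _ => rfl) 1 r with ⟨h, -⟩ | ⟨-, b, h, -⟩
    · rw [h, V_zero]; norm_num
    · rw [h, V_zero]; norm_num⟩

theorem single_apply (s t : Node) : (single s).1 t = if t = s then 1 else 0 := by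
  simp [single, Function.update_apply]

/-- the closed linear span of the coordinate functions -/
noncomputable def XX : Submodule ℝ (CC →ᵇ ℝ) :=
  (Submodule.span ℝ (Set.range ev)).topologicalClosure

/-- the space -/
def XT : Type := ↥XX

noncomputable instance : NormedAddCommGroup XT := inferInstanceAs (NormedAddCommGroup ↥XX)

noncomputable instance : NormedSpace ℝ XT := inferInstanceAs (NormedSpace ℝ ↥XX)

instance : CompleteSpace XT :=
  (Submodule.isClosed_topologicalClosure (Submodule.span ℝ (Set.range ev))).completeSpace_coe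

instance : TopologicalSpace.SeparableSpace XT := by
  have h1 : TopologicalSpace.IsSeparable (Set.range ev) := (Set.countable_range ev).isSeparable
  have h2 : TopologicalSpace.IsSeparable (Submodule.span ℝ (Set.range ev) : Set (CC →ᵇ ℝ)) :=
    h1.span
  have h3 : TopologicalSpace.IsSeparable (XX : Set (CC →ᵇ ℝ)) := by
    rw [XX, Submodule.topologicalClosure_coe]
    exact h2.closure
  exact h3.separableSpace

/-- the inclusion -/
noncomputable def emb : XT →ₗᵢ[ℝ] (CC →ᵇ ℝ) := XX.subtypeₗᵢ

theorem emb_mem (x : XT) : emb x ∈ XX := Subtype.property (p := fun y => y ∈ XX) x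

theorem key (F : Finset Node) (c : CC) (x : CC →ᵇ ℝ) (hx : x ∈ XX) :
    ∑ s ∈ F, x (single s) * c.1 s = x (restr F c) := by
  let L : (CC →ᵇ ℝ) →L[ℝ] ℝ := ∑ s ∈ F, c.1 s • BoundedContinuousFunction.evalCLM ℝ (single s) -
    BoundedContinuousFunction.evalCLM ℝ (restr F c)
  have hL : ∀ y, L y = ∑ s ∈ F, y (single s) * c.1 s - y (restr F c) := by
    intro y
    simp only [L, sub_apply, sum_apply, smul_apply, smul_eq_mul,
      BoundedContinuousFunction.evalCLM_apply]
    congr 1
    exact Finset.sum_congr rfl fun s _ => mul_comm _ _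
  have h1 : XX ≤ LinearMap.ker (L : (CC →ᵇ ℝ) →ₗ[ℝ] ℝ) := by
    apply Submodule.topologicalClosure_minimal
    · rw [Submodule.span_le]
      rintro _ ⟨t, rfl⟩
      change L (ev t) = 0
      rw [hL]
      simp only [ev_apply, single_apply, restr, ite_mul, one_mul, zero_mul]
      rw [Finset.sum_ite_eq]
      simp
    · exact L.isClosed_ker
  have h2 : L x = 0 := h1 hx
  rw [hL] at h2
  linarith

/-- the coordinate functionals on the space -/
noncomputable def w (s : Node) : XT →L[ℝ] ℝ :=
  (BoundedContinuousFunction.evalCLM ℝ (single s)).comp emb.toContinuousLinearMap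

/-- the basis vectors -/
noncomputable def v (s : Node) : XT :=
  (⟨ev s, Submodule.le_topologicalClosure _ (Submodule.subset_span ⟨s, rfl⟩)⟩ : ↥XX)

theorem w_apply (s : Node) (x : XT) : w s x = emb x (single s) := rfl

theorem emb_v (s : Node) : emb (v s) = ev s := rfl

theorem coe_sum (F : Finset Node) (x : XT) (c : CC) :
    emb (∑ s ∈ F, w s x • v s) c = emb x (restr F c) := by
  rw [← key F c (emb x) (emb_mem x), map_sum, BoundedContinuousFunction.sum_apply]
  apply Finset.sum_congr rfl
  intro s _
  rw [map_smul, emb_v]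
  rfl

theorem norm_sum_le' (F : Finset Node) (x : XT) : ‖∑ s ∈ F, w s x • v s‖ ≤ ‖x‖ := by
  rw [← emb.norm_map (∑ s ∈ F, w s x • v s), ← emb.norm_map x]
  apply (BoundedContinuousFunction.norm_le (norm_nonneg _)).2
  intro c
  rw [coe_sum]
  exact (emb x).norm_coe_le_norm _

theorem approx (x : XT) (ε : ℝ) (hε : 0 < ε) : ∃ F₀ : Finset Node, ∀ F : Finset Node, F₀ ⊆ F →
    ‖x - ∑ s ∈ F, w s x • v s‖ < ε := by
  classical
  have hspan : ∀ y ∈ Submodule.span ℝ (Set.range v), ∃ F₀ : Finset Node, ∀ F : Finset Node,
      F₀ ⊆ F → ∑ s ∈ F, w s y • v s = y := by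
    intro y hy
    induction hy using Submodule.span_induction with
    | mem y hy =>
      obtain ⟨t, rfl⟩ := hy
      refine ⟨{t}, fun F hF => ?_⟩
      have ht : t ∈ F := hF (Finset.mem_singleton_self t)
      rw [Finset.sum_eq_single t]
      · have : w t (v t) = 1 := by
          rw [w_apply, emb_v, ev_apply, single_apply, if_pos rfl]
        rw [this, one_smul]
      · intro s _ hs
        have : w s (v t) = 0 := by
          rw [w_apply, emb_v, ev_apply, single_apply, if_neg hs.symm]
        rw [this, zero_smul]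
      · intro h; exact absurd ht h
    | zero => exact ⟨∅, fun F _ => by simp⟩
    | add y z _ _ h1 h2 =>
      obtain ⟨F1, h1⟩ := h1
      obtain ⟨F2, h2⟩ := h2
      refine ⟨F1 ∪ F2, fun F hF => ?_⟩
      simp only [map_add, add_smul]
      rw [Finset.sum_add_distrib, h1 F (Finset.union_subset_left hF),
        h2 F (Finset.union_subset_right hF)]
    | smul a y _ h1 =>
      obtain ⟨F1, h1⟩ := h1
      refine ⟨F1, fun F hF => ?_⟩
      simp only [map_smul, smul_assoc]
      rw [← Finset.smul_sum, h1 F hF]
  obtain ⟨y, hy, hxy⟩ : ∃ y ∈ Submodule.span ℝ (Set.range v), ‖x - y‖ < ε / 2 := by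
    have h1 : emb x ∈ closure (Submodule.span ℝ (Set.range ev) : Set (CC →ᵇ ℝ)) := by
      rw [← Submodule.topologicalClosure_coe]
      exact emb_mem x
    obtain ⟨z, hz, hzx⟩ := Metric.mem_closure_iff.1 h1 (ε / 2) (by positivity)
    have h2 : Submodule.map (emb : XT →ₗ[ℝ] (CC →ᵇ ℝ)) (Submodule.span ℝ (Set.range v)) =
        Submodule.span ℝ (Set.range ev) := by
      rw [Submodule.map_span, ← Set.range_comp]
      rfl
    have hz' : z ∈ Submodule.map (emb : XT →ₗ[ℝ] (CC →ᵇ ℝ)) (Submodule.span ℝ (Set.range v)) := by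
      rw [h2]; exact hz
    obtain ⟨y, hy, rfl⟩ := hz'
    refine ⟨y, hy, ?_⟩
    rw [dist_eq_norm] at hzx
    rw [← emb.norm_map, map_sub]
    exact hzx
  obtain ⟨F₀, hF₀⟩ := hspan y hy
  refine ⟨F₀, fun F hF => ?_⟩
  have h1 : x - ∑ s ∈ F, w s x • v s = (x - y) - ∑ s ∈ F, w s (x - y) • v s := by
    simp only [map_sub, sub_smul, Finset.sum_sub_distrib, hF₀ F hF]
    abel
  rw [h1]
  have h2 := norm_sub_le (x - y) (∑ s ∈ F, w s (x - y) • v s)
  have h3 := norm_sum_le' F (x - y)
  linarith

/-- the dyadic tree in the space -/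
noncomputable def a : Node → XT
  | [] => 0
  | b :: s => a s + sg b • v s

theorem a_apply (s : Node) (c : CC) : emb (a s) c = G c.1 s := by
  induction s with
  | nil => simp [a, G]
  | cons b s ih =>
    simp only [a, G]
    rw [← ih, map_add, map_smul, emb_v]
    rfl

theorem norm_a_le (s : Node) : ‖a s‖ ≤ 1 := by
  rw [← emb.norm_map]
  apply (BoundedContinuousFunction.norm_le zero_le_one).2
  intro c
  rw [a_apply, Real.norm_eq_abs]
  exact (abs_G_le _ _).trans (c.2 s)

/-- `V` and `G` of a multiple -/
theorem V_div (c : Node → ℝ) (s : Node) : V (fun t => c t / 6) s = V c s / 6 := by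
  induction s with
  | nil => simp [V]
  | cons b s ih =>
    simp only [V, ih, abs_div]
    rw [abs_of_pos (by norm_num : (0 : ℝ) < 6)]
    ring

theorem G_div (c : Node → ℝ) (s : Node) : G (fun t => c t / 6) s = G c s / 6 := by
  induction s with
  | nil => simp [G]
  | cons b s ih =>
    simp only [G, ih]
    ring

/-- The convex hull of the dyadic tree is not slicely countably determined. -/
theorem not_scd (f : ℕ → (XT →L[ℝ] ℝ)) (c : ℕ → ℝ)
    (hf : ∀ n, ∃ x ∈ convexHull ℝ (Set.range a), c n < f n x) :
    ∃ y : ℕ → XT, (∀ n, y n ∈ convexHull ℝ (Set.range a) ∧ c n < f n (y n)) ∧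
      ¬ convexHull ℝ (Set.range a) ⊆ closure (convexHull ℝ (Set.range y)) := by
  have hmem : ∀ s, a s ∈ convexHull ℝ (Set.range a) := fun s => subset_convexHull ℝ _ ⟨s, rfl⟩
  obtain ⟨k, t, hk, ht⟩ := exists_coeff (fun n s => c n < f n (a s)) (by
    intro n s hs
    by_contra hcon
    push Not at hcon
    have h1 := hcon false
    have h2 := hcon true
    simp only [a, map_add, map_smul, sg, smul_eq_mul] at h1 h2
    simp only [Bool.false_eq_true, if_false, if_true, one_mul] at h1 h2
    linarith) (by
    intro n
    by_contra hcon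
    push Not at hcon
    obtain ⟨x, hx, hx2⟩ := hf n
    have h1 : convexHull ℝ (Set.range a) ⊆ {x | f n x ≤ c n} := by
      apply convexHull_min
      · rintro _ ⟨s, rfl⟩
        exact hcon s
      · exact convex_halfSpace_le (f n).isLinear _
    have h2 : f n x ≤ c n := h1 hx
    linarith)
  have hkC : (fun s => k s / 6) ∈ CC := by
    intro s
    rw [V_div]
    have := hk s
    linarith
  let L : XT →L[ℝ] ℝ :=
    (BoundedContinuousFunction.evalCLM ℝ (⟨_, hkC⟩ : CC)).comp emb.toContinuousLinearMap
  have hL : ∀ s, L (a s) = G k s / 6 := by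
    intro s
    have h1 : L (a s) = emb (a s) ⟨_, hkC⟩ := rfl
    rw [h1, a_apply, G_div]
  refine ⟨fun n => a (t n), fun n => ⟨hmem _, (ht n).1⟩, fun hsub => ?_⟩
  have h0 : (a [] : XT) ∈ closure (convexHull ℝ (Set.range fun n => a (t n))) := hsub (hmem _)
  have h1 : closure (convexHull ℝ (Set.range fun n => a (t n))) ⊆ {x | L x ≤ -1 / 6} := by
    apply closure_minimal
    · apply convexHull_min
      · rintro _ ⟨n, rfl⟩
        change L (a (t n)) ≤ -1 / 6
        rw [hL]
        have := (ht n).2
        linarith
      · exact convex_halfSpace_le L.isLinear _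
    · exact isClosed_le L.continuous continuous_const
  have h2 : L (a []) ≤ -1 / 6 := h1 h0
  rw [hL] at h2
  simp only [G] at h2
  linarith

theorem isBounded_hull : Bornology.IsBounded (convexHull ℝ (Set.range a)) := by
  rw [isBounded_convexHull]
  rw [isBounded_iff_forall_norm_le]
  exact ⟨1, by rintro _ ⟨s, rfl⟩; exact norm_a_le s⟩

end Pool.Agent.W2helper15.SCD
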