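import Mathlib

/-! The combinatorial core: a coefficient function of bounded variation along the branches of the
dyadic tree which is large at suitably chosen nodes. A node is a list of booleans; the children of
`s` are `false :: s` and `true :: s`. -/

set_option autoImplicit false

namespace Pool.Agent.W2helper15.SCD

/-- nodes of the dyadic tree -/
abbrev Node := List Bool

/-- the sign of a turn -/
noncomputable def sg (b : Bool) : ℝ := if b then -1 else 1

theorem sg_abs (b : Bool) : |sg b| = 1 := by cases b <;> simp [sg]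

theorem sg_sq (b : Bool) : sg b * sg b = 1 := by cases b <;> simp [sg]

/-- the variation of `c` above the node -/
noncomputable def V (c : Node → ℝ) : Node → ℝ
  | [] => 0
  | _ :: s => V c s + |c s|

/-- the value at the node of the martingale with increments `± c` -/
noncomputable def G (c : Node → ℝ) : Node → ℝ
  | [] => 0
  | b :: s => G c s + sg b * c s

theorem abs_G_le (c : Node → ℝ) (s : Node) : |G c s| ≤ V c s := by
  induction s with
  | nil => simp [G, V]
  | cons b s ih =>
    simp only [G, V]
    refine (abs_add_le _ _).trans ?_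
    rw [abs_mul, sg_abs, one_mul]
    linarith

theorem V_nonneg (c : Node → ℝ) (s : Node) : 0 ≤ V c s := (abs_nonneg _).trans (abs_G_le c s)

theorem V_congr {c c' : Node → ℝ} (s : Node) (h : ∀ t : Node, t.length < s.length → c t = c' t) :
    V c s = V c' s := by
  induction s with
  | nil => rfl
  | cons b s ih =>
    simp only [V]
    rw [ih (fun t ht => h t (by simp only [List.length_cons]; omega)), h s (by simp)]

theorem G_congr {c c' : Node → ℝ} (s : Node) (h : ∀ t : Node, t.length < s.length → c t = c' t) :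
    G c s = G c' s := by
  induction s with
  | nil => rfl
  | cons b s ih =>
    simp only [G]
    rw [ih (fun t ht => h t (by simp only [List.length_cons]; omega)), h s (by simp)]

theorem V_mono {c c' : Node → ℝ} (h : ∀ t : Node, |c t| ≤ |c' t|) (s : Node) : V c s ≤ V c' s := by
  induction s with
  | nil => simp [V]
  | cons b s ih =>
    simp only [V]
    exact add_le_add ih (h s)

/-- Changing `c` at one node beyond which it vanishes. -/
theorem update_cases [DecidableEq Node] (c : Node → ℝ) (s : Node)
    (hc : ∀ r : Node, s.length ≤ r.length → c r = 0) (x : ℝ) (r : Node) :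
    (V (Function.update c s x) r = V c r ∧ G (Function.update c s x) r = G c r) ∨
    (s.length < r.length ∧ ∃ b, V (Function.update c s x) r = V c s + |x| ∧
      G (Function.update c s x) r = G c s + sg b * x) := by
  induction r with
  | nil => left; simp [V, G]
  | cons b r ih =>
    by_cases hrs : r = s
    · right
      subst hrs
      refine ⟨by simp, b, ?_, ?_⟩
      · simp only [V, Function.update_self]
        rw [V_congr (c' := c) r]
        intro t ht
        rw [Function.update_of_ne]
        rintro rfl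
        exact lt_irrefl _ ht
      · simp only [G, Function.update_self]
        rw [G_congr (c' := c) r]
        intro t ht
        rw [Function.update_of_ne]
        rintro rfl
        exact lt_irrefl _ ht
    · simp only [V, G, Function.update_of_ne hrs]
      rcases ih with ⟨h1, h2⟩ | ⟨h1, b', h2, h3⟩
      · left
        rw [h1, h2]
        exact ⟨rfl, rfl⟩
      · right
        rw [hc r h1.le, h2, h3]
        refine ⟨by simp only [List.length_cons]; omega, b', by simp, by simp⟩

/-- Climbing along a path with steps `d`. Here `P` is the property of nodes which should be kept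
(the value of a functional being large), it can always be kept in one of the two children. -/
theorem climb {P : Node → Prop} (hP : ∀ s, P s → ∃ b, P (b :: s)) {d D : ℝ} (hd : 0 < d)
    (hd1 : d ≤ 1) (m : ℕ) : ∀ (c : Node → ℝ) (s : Node),
    (∀ r : Node, s.length ≤ r.length → c r = 0) →
    (∀ r, V c r ≤ -G c r + 2 * (D + d)) → V c s ≤ -G c s + 2 * D →
    (∀ r, -G c r ≤ 2) → 1 ≤ -G c s + m * d → P s →
    ∃ (c' : Node → ℝ) (t : Node), (∀ r : Node, r.length < s.length → c' r = c r) ∧
      s.length ≤ t.length ∧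
      (∀ r : Node, t.length ≤ r.length → c' r = 0) ∧
      (∀ r, V c' r ≤ -G c' r + 2 * (D + d)) ∧ (∀ r, -G c' r ≤ 2) ∧ 1 ≤ -G c' t ∧ P t := by
  classical
  induction m with
  | zero =>
    intro c s h1 h2 h3 h4 h5 h6
    exact ⟨c, s, fun _ _ => rfl, le_rfl, h1, h2, h4, by simpa using h5, h6⟩
  | succ m ih =>
    intro c s h1 h2 h3 h4 h5 h6
    by_cases hs : 1 ≤ -G c s
    · exact ⟨c, s, fun _ _ => rfl, le_rfl, h1, h2, h4, hs, h6⟩
    push Not at hs
    obtain ⟨b, hb⟩ := hP s h6
    set c1 := Function.update c s (-(sg b * d)) with hc1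
    have hx : |(-(sg b * d))| = d := by
      rw [abs_neg, abs_mul, sg_abs, one_mul, abs_of_pos hd]
    have hcong : ∀ t : Node, t.length < s.length → c1 t = c t := by
      intro t ht
      rw [hc1, Function.update_of_ne]
      rintro rfl
      exact lt_irrefl _ ht
    have hVs : V c1 s = V c s := V_congr s hcong
    have hGs : G c1 s = G c s := G_congr s hcong
    have hV1 : V c1 (b :: s) = V c s + d := by
      simp only [V]
      rw [hVs, hc1, Function.update_self, hx]
    have hG1 : G c1 (b :: s) = G c s - d := by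
      simp only [G]
      rw [hGs, hc1, Function.update_self]
      have := sg_sq b
      calc G c s + sg b * -(sg b * d) = G c s - (sg b * sg b) * d := by ring
        _ = _ := by rw [this, one_mul]
    have hcases := update_cases c s h1 (-(sg b * d))
    rw [← hc1, hx] at hcases
    have hsg : ∀ b', sg b' * (-(sg b * d)) = d ∨ sg b' * (-(sg b * d)) = -d := by
      intro b'
      cases b <;> cases b' <;> simp [sg]
    have k1 : ∀ r : Node, (b :: s).length ≤ r.length → c1 r = 0 := by
      intro r hr
      simp only [List.length_cons] at hr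
      rw [hc1, Function.update_of_ne]
      · exact h1 r (by omega)
      · rintro rfl
        omega
    have k2 : ∀ r, V c1 r ≤ -G c1 r + 2 * (D + d) := by
      intro r
      rcases hcases r with ⟨g1, g2⟩ | ⟨-, b', g1, g2⟩
      · rw [g1, g2]; exact h2 r
      · rw [g1, g2]
        rcases hsg b' with g3 | g3 <;> rw [g3] <;> linarith
    have k3 : V c1 (b :: s) ≤ -G c1 (b :: s) + 2 * D := by
      rw [hV1, hG1]; linarith
    have k4 : ∀ r, -G c1 r ≤ 2 := by
      intro r
      rcases hcases r with ⟨g1, g2⟩ | ⟨-, b', g1, g2⟩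
      · rw [g2]; exact h4 r
      · rw [g2]
        rcases hsg b' with g3 | g3 <;> rw [g3] <;> linarith
    have k5 : 1 ≤ -G c1 (b :: s) + m * d := by
      rw [hG1]
      push_cast at h5
      linarith
    obtain ⟨c', t, g1, g2, g3, g4, g5, g6, g7⟩ := ih c1 (b :: s) k1 k2 k3 k4 k5 hb
    refine ⟨c', t, fun r hr => ?_, le_trans (by simp) g2, g3, g4, g5, g6, g7⟩
    rw [g1 r (by simp only [List.length_cons]; omega), hcong r hr]

/-- One stage of the construction. -/
theorem stage {P : Node → Prop} (hP : ∀ s, P s → ∃ b, P (b :: s)) (hP0 : ∃ s, P s) {d D : ℝ}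
    (hd : 0 < d) (hd1 : d ≤ 1) (c : Node → ℝ) (N : ℕ)
    (h1 : ∀ r : Node, N ≤ r.length → c r = 0) (h2 : ∀ r, V c r ≤ -G c r + 2 * D)
    (h3 : ∀ r, -G c r ≤ 2) :
    ∃ (c' : Node → ℝ) (N' : ℕ), N < N' ∧ (∀ r : Node, r.length < N → c' r = c r) ∧
      (∀ r : Node, N' ≤ r.length → c' r = 0) ∧ (∀ r, V c' r ≤ -G c' r + 2 * (D + d)) ∧
      (∀ r, -G c' r ≤ 2) ∧ ∃ t : Node, t.length ≤ N' ∧ P t ∧ 1 ≤ -G c' t := by
  have hlong : ∀ m : ℕ, ∃ s : Node, m ≤ s.length ∧ P s := by
    intro m
    induction m with
    | zero => obtain ⟨s, hs⟩ := hP0; exact ⟨s, Nat.zero_le _, hs⟩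
    | succ m ih =>
      obtain ⟨s, hs1, hs2⟩ := ih
      obtain ⟨b, hb⟩ := hP s hs2
      exact ⟨b :: s, by simp only [List.length_cons]; omega, hb⟩
  obtain ⟨s, hs1, hs2⟩ := hlong (N + 1)
  obtain ⟨m, hm⟩ := exists_nat_gt ((1 + G c s) / d)
  rw [div_lt_iff₀ hd] at hm
  obtain ⟨c', t, g1, g2, g3, g4, g5, g6, g7⟩ := climb hP hd hd1 m c s
    (fun r hr => h1 r (by omega)) (fun r => (h2 r).trans (by linarith)) (h2 s) h3 (by linarith) hs2
  exact ⟨c', t.length, by omega, fun r hr => g1 r (by omega), g3, g4, g5, t, le_rfl, g7, g6⟩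

/-- The main combinatorial statement. -/
theorem exists_coeff (P : ℕ → Node → Prop) (hP : ∀ n s, P n s → ∃ b, P n (b :: s))
    (hP0 : ∀ n, ∃ s, P n s) :
    ∃ (c : Node → ℝ) (t : ℕ → Node), (∀ s, V c s ≤ 6) ∧ ∀ n, P n (t n) ∧ G c (t n) ≤ -1 := by
  classical
  -- the states of the construction
  let St := {p : (Node → ℝ) × ℕ × ℝ // (∀ r : Node, p.2.1 ≤ r.length → p.1 r = 0) ∧
    (∀ r, V p.1 r ≤ -G p.1 r + 2 * p.2.2) ∧ (∀ r, -G p.1 r ≤ 2)}
  have hstep : ∀ (n : ℕ) (p : St), ∃ q : St, p.1.2.1 < q.1.2.1 ∧
      (∀ r : Node, r.length < p.1.2.1 → q.1.1 r = p.1.1 r) ∧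
      q.1.2.2 = p.1.2.2 + (1 / 2) ^ n ∧
      ∃ t : Node, t.length ≤ q.1.2.1 ∧ P n t ∧ 1 ≤ -G q.1.1 t := by
    intro n p
    obtain ⟨c', N', g1, g2, g3, g4, g5, g6⟩ := stage (hP n) (hP0 n)
      (d := (1 / 2) ^ n) (D := p.1.2.2) (by positivity)
      (pow_le_one₀ (by norm_num) (by norm_num)) p.1.1 p.1.2.1 p.2.1 p.2.2.1 p.2.2.2
    exact ⟨⟨(c', N', p.1.2.2 + (1 / 2) ^ n), g3, g4, g5⟩, g1, g2, rfl, g6⟩
  choose nxt hn1 hn2 hn3 hn4 using hstep
  have hV0 : ∀ r, V (fun _ : Node => (0 : ℝ)) r = 0 := by
    intro r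
    induction r with
    | nil => rfl
    | cons b r ih => simp [V, ih]
  have hG0 : ∀ r, G (fun _ : Node => (0 : ℝ)) r = 0 := by
    intro r
    induction r with
    | nil => rfl
    | cons b r ih => simp [G, ih]
  let p0 : St := ⟨(fun _ => 0, 0, 0), fun _ _ => rfl, fun r => by
    rw [hV0, hG0]; simp, fun r => by rw [hG0]; norm_num⟩
  let p : ℕ → St := fun n => Nat.rec p0 (fun n q => nxt n q) n
  have hp : ∀ n, p (n + 1) = nxt n (p n) := fun n => rfl
  have hN : ∀ n, n ≤ (p n).1.2.1 := by
    intro n
    induction n with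
    | zero => exact Nat.zero_le _
    | succ n ih =>
      have := hn1 n (p n)
      rw [← hp] at this
      omega
  have hNmono : ∀ n k, (p n).1.2.1 ≤ (p (n + k)).1.2.1 := by
    intro n k
    induction k with
    | zero => exact le_rfl
    | succ k ih =>
      have := hn1 (n + k) (p (n + k))
      rw [← hp] at this
      rw [← add_assoc]
      omega
  have hstab : ∀ n k, ∀ r : Node, r.length < (p n).1.2.1 → (p (n + k)).1.1 r = (p n).1.1 r := by
    intro n k
    induction k with
    | zero => intro r _; rfl
    | succ k ih =>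
      intro r hr
      have h1 := hn2 (n + k) (p (n + k)) r (lt_of_lt_of_le hr (hNmono n k))
      rw [← hp] at h1
      rw [← add_assoc, h1]
      exact ih r hr
  have hD : ∀ n, (p n).1.2.2 ≤ 2 - 2 * (1 / 2) ^ n := by
    intro n
    induction n with
    | zero => simp [p, p0]
    | succ n ih =>
      have := hn3 n (p n)
      rw [← hp] at this
      rw [this, pow_succ]
      linarith
  let c : Node → ℝ := fun r => (p (r.length + 1)).1.1 r
  have hc : ∀ n, ∀ r : Node, r.length < (p n).1.2.1 → c r = (p n).1.1 r := by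
    intro n r hr
    have h1 : r.length < (p (r.length + 1)).1.2.1 := by
      have := hN (r.length + 1); omega
    rcases le_total n (r.length + 1) with h | h
    · obtain ⟨k, hk⟩ := Nat.exists_eq_add_of_le h
      change (p (r.length + 1)).1.1 r = _
      rw [hk]
      exact hstab n k r hr
    · obtain ⟨k, hk⟩ := Nat.exists_eq_add_of_le h
      change (p (r.length + 1)).1.1 r = _
      have := hstab (r.length + 1) k r h1
      rw [hk]
      exact this.symm
  have ht : ∀ n, ∃ t : Node, t.length ≤ (p (n + 1)).1.2.1 ∧ P n t ∧ 1 ≤ -G (p (n + 1)).1.1 t :=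
    fun n => hn4 n (p n)
  choose t ht1 ht2 ht3 using ht
  refine ⟨c, t, fun s => ?_, fun n => ⟨ht2 n, ?_⟩⟩
  · have h1 : V c s = V (p s.length).1.1 s := V_congr s fun r hr =>
      hc s.length r (by have := hN s.length; omega)
    rw [h1]
    have h2 := (p s.length).2.2.1 s
    have h3 := (p s.length).2.2.2 s
    have h4 := hD s.length
    have h5 : (0 : ℝ) ≤ 2 * (1 / 2) ^ s.length := by positivity
    linarith
  · have h1 : G c (t n) = G (p (n + 1)).1.1 (t n) := G_congr (t n) fun r hr =>
      hc (n + 1) r (by have := ht1 n; omega)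
    rw [h1]
    have := ht3 n
    linarith

end Pool.Agent.W2helper15.SCD
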